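import Pool.Agent.V11330.FS.Fill
import Pool.Agent.V11330.BMTools

set_option autoImplicit false

open Set Filter Topology MeasureTheory ProbabilityTheory
open scoped NNReal ENNReal

namespace Pool.Agent.V11330.FS

open Pool.Agent.TH970

/-- the path of the increments after time one -/
def sh (x : ℝ≥0 → ℝ) : ℝ≥0 → ℝ := fun t => x (1 + t) - x 1

lemma measurable_sh : Measurable sh := by
  refine measurable_pi_lambda _ fun t => ?_
  exact (measurable_pi_apply _).sub (measurable_pi_apply _)

lemma sh_iterate (n : ℕ) (x : ℝ≥0 → ℝ) : sh^[n] x = fun t => x (n + t) - x n + (if n = 0 then x 0 else 0) := by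
  induction n generalizing x with
  | zero => funext t; simp
  | succ n ih =>
    rw [Function.iterate_succ, Function.comp_apply, ih]
    funext t
    rcases Nat.eq_zero_or_pos n with h | h
    · subst h
      simp [sh]
    · rw [if_neg (by omega), if_neg (by omega)]
      simp only [sh, add_zero]
      push_cast
      have e1 : (1 : ℝ≥0) + (n + t) = n + 1 + t := by ring
      have e2 : (1 : ℝ≥0) + n = n + 1 := by ring
      rw [e1, e2]
      ring

section
variable {Ω : Type*} [MeasurableSpace Ω] {P : Measure Ω} [IsProbabilityMeasure P]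
  {B : ℝ≥0 → Ω → ℝ}

lemma mp_sh (hB : CBM P B) : MeasurePreserving sh (P.map (path B)) (P.map (path B)) := by
  refine ⟨measurable_sh, ?_⟩
  rw [Measure.map_map measurable_sh hB.mpath]
  have h1 : (sh ∘ path B) = path (fun t ω => B (1 + t) ω - B 1 ω) := rfl
  rw [h1]
  exact law_unique (hB.pre.shift 1) hB.pre (fun t => (hB.meas _).sub (hB.meas _)) hB.meas

theorem rec_sh (hB : CBM P B) : Rec sh (P.map (path B)) := by
  intro G hG hG0
  set W := P.map (path B) with hW
  have hWp : IsProbabilityMeasure W := Measure.isProbabilityMeasure_map hB.mpath.aemeasurable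
  have hmp := mp_sh hB
  set V : Set (ℝ≥0 → ℝ) := ⋂ n : ℕ, (sh^[n]) ⁻¹' Gᶜ with hV
  have hVm : MeasurableSet V := MeasurableSet.iInter fun n => (measurable_sh.iterate n) hG.compl
  have hsub : V ⊆ sh ⁻¹' V := by
    intro x hx
    rw [mem_preimage, hV, mem_iInter]
    intro n
    have := mem_iInter.1 hx (n + 1)
    rwa [Function.iterate_succ] at this
  have hsubn : ∀ n : ℕ, V ⊆ (sh^[n]) ⁻¹' V := by
    intro n
    induction n with
    | zero => exact le_rfl
    | succ n ih =>
      intro x hx
      rw [Function.iterate_succ, preimage_comp]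
      exact preimage_mono (f := sh) ih (hsub hx)
  have hae : ∀ n : ℕ, V =ᵐ[W] (sh^[n]) ⁻¹' V := by
    intro n
    refine ae_eq_of_subset_of_measure_ge (hsubn n) ?_ hVm.nullMeasurableSet (measure_ne_top _ _)
    rw [(hmp.iterate n).measure_preimage hVm.nullMeasurableSet]
  -- independence from every cylinder
  have hind : ∀ A ∈ measurableCylinders (fun _ : ℝ≥0 => ℝ), W (V ∩ A) = W V * W A := by
    intro A hA
    obtain ⟨I, S, hS, rfl⟩ := (mem_measurableCylinders _).1 hA
    obtain ⟨n, hn⟩ : ∃ n : ℕ, 0 < n ∧ ∀ i ∈ I, i ≤ (n : ℝ≥0) := by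
      obtain ⟨m, hm⟩ := exists_nat_ge (I.sup id)
      refine ⟨m + 1, by omega, fun i hi => ?_⟩
      have h1 : i ≤ I.sup id := Finset.le_sup (f := id) hi
      push_cast
      exact (h1.trans hm).trans (by simp)
    have hcyl : MeasurableSet (cylinder (α := fun _ : ℝ≥0 => ℝ) I S) := MeasurableSet.cylinder I hS
    have h1 : W (V ∩ cylinder I S) = W ((sh^[n]) ⁻¹' V ∩ cylinder I S) :=
      measure_congr ((hae n).inter (ae_eq_refl _))
    have hVn : MeasurableSet ((sh^[n]) ⁻¹' V) := (measurable_sh.iterate n) hVm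
    rw [h1, hW, Measure.map_apply hB.mpath (hVn.inter hcyl)]
    have hindep := hB.pre.indepFun_shift (n : ℝ≥0)
    set A' : Set (Set.Iic (n : ℝ≥0) → ℝ) :=
      (fun w (i : I) => w ⟨i, hn.2 i i.2⟩) ⁻¹' S with hA'
    have hA'm : MeasurableSet A' := by
      refine Measurable.comp (g := id) measurable_id (measurable_pi_lambda _ fun i => ?_) hS
      exact measurable_pi_apply _
    have e1 : path B ⁻¹' ((sh^[n]) ⁻¹' V ∩ cylinder I S) =
        (fun ω t => B ((n : ℝ≥0) + t) ω - B n ω) ⁻¹' V ∩
        (fun ω (t : Set.Iic (n : ℝ≥0)) => B t ω) ⁻¹' A' := by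
      ext ω
      simp only [mem_preimage, mem_inter_iff]
      rw [sh_iterate, if_neg (by omega)]
      simp only [add_zero]
      exact Iff.rfl
    rw [e1, hindep.measure_inter_preimage_eq_mul V A' hVm hA'm]
    have e2 : P ((fun ω t => B ((n : ℝ≥0) + t) ω - B n ω) ⁻¹' V) = W V := by
      have h2 := (hmp.iterate n).measure_preimage hVm.nullMeasurableSet
      rw [hW, ← h2, Measure.map_apply hB.mpath hVn]
      congr 1
      ext ω
      simp only [mem_preimage]
      rw [sh_iterate, if_neg (by omega)]
      simp only [add_zero]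
      exact Iff.rfl
    have e3 : P ((fun ω (t : Set.Iic (n : ℝ≥0)) => B t ω) ⁻¹' A') = W (cylinder I S) := by
      rw [hW, Measure.map_apply hB.mpath hcyl]
      rfl
    rw [e2, e3]
  have hrestr : W.restrict V = W V • W := by
    refine ext_of_generate_finite (measurableCylinders (fun _ : ℝ≥0 => ℝ))
      generateFrom_measurableCylinders.symm isPiSystem_measurableCylinders ?_ ?_
    · intro A hA
      have hAm : MeasurableSet A := by
        obtain ⟨I, S, hS, rfl⟩ := (mem_measurableCylinders _).1 hA
        exact MeasurableSet.cylinder I hS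
      rw [Measure.restrict_apply hAm, inter_comm, hind A hA, Measure.smul_apply, smul_eq_mul]
    · rw [Measure.restrict_apply_univ, Measure.smul_apply, smul_eq_mul, measure_univ, mul_one]
  have hsq : W V = W V * W V := by
    have h1 := congrArg (fun μ : Measure (ℝ≥0 → ℝ) => μ V) hrestr
    simp only [Measure.restrict_apply hVm, inter_self, Measure.smul_apply, smul_eq_mul] at h1
    exact h1
  -- V is disjoint from G
  have hdisj : W V ≤ 1 - W G := by
    have h1 : V ⊆ Gᶜ := fun x hx => by
      have := mem_iInter.1 hx 0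
      exact this
    refine (measure_mono h1).trans ?_
    rw [prob_compl_eq_one_sub hG]
  by_contra hne
  have hV1 : W V = 1 := by
    have h2 : W V ≠ ⊤ := measure_ne_top _ _
    have h3 := (ENNReal.mul_eq_left hne h2).1 hsq.symm
    exact h3
  rw [hV1] at hdisj
  have h4 : W G ≤ 1 := prob_le_one
  have h5 : (1 : ℝ≥0∞) - W G < 1 := ENNReal.sub_lt_self ENNReal.one_ne_top one_ne_zero hG0
  exact absurd hdisj (not_le.2 h5)

end

end Pool.Agent.V11330.FS
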