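import Pool.Agent.V11330.FS.BMShift

set_option autoImplicit false

open Set Filter Topology MeasureTheory ProbabilityTheory
open scoped NNReal ENNReal

namespace Pool.Agent.V11330.FS

open Pool.Agent.TH970

/-- the path `x` with the first `n` time units of a reversed path put in front -/
def YY (n : ℕ) (x η : ℝ≥0 → ℝ) : ℝ≥0 → ℝ := cat n (rev n η) x

lemma YY_zero (x η : ℝ≥0 → ℝ) : YY 0 x η = x := by
  funext t
  unfold YY cat rev
  simp

lemma YY_le {n : ℕ} {x η : ℝ≥0 → ℝ} (hx : x 0 = 0) {t : ℝ≥0} (h : t ≤ n) :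
    YY n x η t = η n - η (n - t) := by
  unfold YY
  rw [cat_left hx h]
  unfold rev
  rw [max_eq_right h]

lemma YY_add {n : ℕ} {x η : ℝ≥0 → ℝ} (hη : η 0 = 0) (t : ℝ≥0) :
    YY n x η (n + t) = η n + x t := by
  unfold YY
  rw [cat_add]
  unfold rev
  rw [max_self, tsub_self, hη, sub_zero]

lemma sh_YY {n : ℕ} {x η : ℝ≥0 → ℝ} (hx : x 0 = 0) (hη : η 0 = 0) :
    sh (YY (n + 1) x η) = YY n x η := by
  funext t
  unfold sh
  have h1 : YY (n + 1) x η 1 = η (n + 1 : ℕ) - η n := by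
    rw [YY_le hx (by push_cast; exact le_add_self)]
    congr 2
    push_cast
    exact add_tsub_cancel_right _ _
  rw [h1]
  rcases le_total t n with h | h
  · rw [YY_le hx h, YY_le hx (by push_cast; rw [add_comm]; gcongr)]
    have : ((n + 1 : ℕ) : ℝ≥0) - (1 + t) = n - t := by
      push_cast
      rw [add_comm (n : ℝ≥0) 1, add_tsub_add_eq_tsub_left]
    rw [this]; ring
  · obtain ⟨r, rfl⟩ := exists_add_of_le h
    have e1 : (1 : ℝ≥0) + (n + r) = ((n + 1 : ℕ) : ℝ≥0) + r := by push_cast; ring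
    rw [e1, YY_add hη, YY_add hη]
    ring

lemma measurable_YY (n : ℕ) :
    Measurable (fun q : (ℝ≥0 → ℝ) × (ℝ≥0 → ℝ) => YY n q.1 q.2) := by
  unfold YY
  have h1 : Measurable (fun q : (ℝ≥0 → ℝ) × (ℝ≥0 → ℝ) => (rev n q.2, q.1)) :=
    ((measurable_rev _).comp measurable_snd).prodMk measurable_fst
  exact (measurable_cat _).comp h1

lemma continuous_YY (n : ℕ) {x η : ℝ≥0 → ℝ} (hx : Continuous x) (hη : Continuous η) :
    Continuous (YY n x η) := by
  unfold YY
  refine continuous_cat ?_ hx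
  unfold rev
  exact (hη.comp (continuous_id.max continuous_const)).sub
    (hη.comp (continuous_const.sub continuous_id))

section
variable {Ω : Type*} [MeasurableSpace Ω] {P : Measure Ω} [IsProbabilityMeasure P]
  {B : ℝ≥0 → Ω → ℝ}

/-- the law of the extended path -/
lemma lintegral_YY (hB : CBM P B) (n : ℕ) {F : (ℝ≥0 → ℝ) → ℝ≥0∞} (hF : Measurable F) :
    ∫⁻ ω, F (YY n (path B ω.1) (path B ω.2)) ∂(P.prod P) = ∫⁻ ω, F (path B ω) ∂P := by
  have hm : Measurable (fun ω : Ω × Ω => F (YY n (path B ω.1) (path B ω.2))) :=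
    hF.comp ((measurable_YY n).comp ((hB.mpath.comp measurable_fst).prodMk
      (hB.mpath.comp measurable_snd)))
  rw [lintegral_prod _ hm.aemeasurable]
  have h1 : ∀ ω₁ : Ω, ∫⁻ ω₂, F (YY n (path B ω₁) (path B ω₂)) ∂P =
      ∫⁻ ω₂, F (cat n (path B ω₂) (path B ω₁)) ∂P := by
    intro ω₁
    have hm0 : Measurable (fun w : ℝ≥0 → ℝ => (w, path B ω₁)) :=
      measurable_id.prodMk measurable_const
    have hm2 : Measurable (fun w : ℝ≥0 → ℝ => F (cat n w (path B ω₁))) :=
      hF.comp ((measurable_cat (n : ℝ≥0)).comp hm0)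
    exact lintegral_rev hB n hm2
  simp only [h1]
  have hm3 : Measurable (fun ω : Ω × Ω => F (cat n (path B ω.2) (path B ω.1))) :=
    hF.comp ((measurable_cat _).comp ((hB.mpath.comp measurable_snd).prodMk
      (hB.mpath.comp measurable_fst)))
  rw [lintegral_lintegral_swap hm3.aemeasurable]
  exact lintegral_cat hB n hF

variable {s : (ℝ≥0 → ℝ) → ℝ}

/-- the remaining supply seen along the backward extension -/
noncomputable def aa (B : ℝ≥0 → Ω → ℝ) (s : (ℝ≥0 → ℝ) → ℝ) (n : ℕ) (ω : Ω × Ω) : ℝ :=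
  ff sh s n (YY n (path B ω.1) (path B ω.2))

/-- the upper level of the `n`-th layer -/
noncomputable def bb (B : ℝ≥0 → Ω → ℝ) (s : (ℝ≥0 → ℝ) → ℝ) : ℕ → Ω × Ω → ℝ
  | 0 => fun ω => s (path B ω.1)
  | n + 1 => aa B s n

omit [MeasurableSpace Ω] in
lemma aa_nonneg (n : ℕ) (ω : Ω × Ω) : 0 ≤ aa B s n ω := ff_nonneg _ _

lemma aa_succ_le (hB : CBM P B) (n : ℕ) (ω : Ω × Ω) : aa B s (n + 1) ω ≤ aa B s n ω := by
  unfold aa
  refine (ff_succ_le n _).trans ?_
  rw [sh_YY (hB.path_zero _) (hB.path_zero _)]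

lemma aa_le_bb (hB : CBM P B) (hs0 : ∀ x, 0 ≤ s x) (n : ℕ) (ω : Ω × Ω) :
    aa B s n ω ≤ bb B s n ω := by
  cases n with
  | zero =>
    show aa B s 0 ω ≤ s (path B ω.1)
    unfold aa ff
    rw [YY_zero]
    show max (s (path B ω.1) - 1) 0 ≤ _
    exact max_le (by linarith) (hs0 _)
  | succ n => exact aa_succ_le hB n ω

lemma bb_anti (hB : CBM P B) (hs0 : ∀ x, 0 ≤ s x) (ω : Ω × Ω) : Antitone fun n => bb B s n ω :=
  antitone_nat_of_succ_le fun n => aa_le_bb hB hs0 n ω

/-- the layers -/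
def DD (B : ℝ≥0 → Ω → ℝ) (s : (ℝ≥0 → ℝ) → ℝ) (n : ℕ) : Set ((Ω × Ω) × ℝ) :=
  {z | aa B s n z.1 ≤ z.2 ∧ z.2 < bb B s n z.1}

lemma DD_disj (hB : CBM P B) (hs0 : ∀ x, 0 ≤ s x) {n m : ℕ} (h : n < m) {z : (Ω × Ω) × ℝ}
    (h1 : z ∈ DD B s n) (h2 : z ∈ DD B s m) : False := by
  have h3 : bb B s m z.1 ≤ bb B s (n + 1) z.1 := bb_anti hB hs0 z.1 h
  have h4 : bb B s (n + 1) z.1 = aa B s n z.1 := rfl
  rw [h4] at h3
  linarith [h1.1, h2.2]

/-- the region under the graph of the density -/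
def RR (B : ℝ≥0 → Ω → ℝ) (s : (ℝ≥0 → ℝ) → ℝ) : Set ((Ω × Ω) × ℝ) :=
  {z | 0 ≤ z.2 ∧ z.2 < s (path B z.1.1)}

lemma DD_subset (hB : CBM P B) (hs0 : ∀ x, 0 ≤ s x) (n : ℕ) : DD B s n ⊆ RR B s := by
  intro z hz
  exact ⟨(aa_nonneg n z.1).trans hz.1, hz.2.trans_le (bb_anti hB hs0 z.1 (Nat.zero_le n))⟩

lemma measurable_aa (hB : CBM P B) (hsm : Measurable s) (n : ℕ) : Measurable (aa B s n) :=
  (measurable_ff measurable_sh hsm n).comp ((measurable_YY n).comp
    ((hB.mpath.comp measurable_fst).prodMk (hB.mpath.comp measurable_snd)))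

lemma measurable_bb (hB : CBM P B) (hsm : Measurable s) (n : ℕ) : Measurable (bb B s n) := by
  cases n with
  | zero => exact hsm.comp (hB.mpath.comp measurable_fst)
  | succ n => exact measurable_aa hB hsm n

lemma measurableSet_DD (hB : CBM P B) (hsm : Measurable s) (n : ℕ) : MeasurableSet (DD B s n) :=
  (measurableSet_le ((measurable_aa hB hsm n).comp measurable_fst) measurable_snd).inter
    (measurableSet_lt measurable_snd ((measurable_bb hB hsm n).comp measurable_fst))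

lemma measurableSet_RR (hB : CBM P B) (hsm : Measurable s) : MeasurableSet (RR B s) :=
  (measurableSet_le measurable_const measurable_snd).inter
    (measurableSet_lt measurable_snd (hsm.comp (hB.mpath.comp (measurable_fst.comp measurable_fst))))

/-- the enlarged probability space -/
noncomputable def QQ (P : Measure Ω) (B : ℝ≥0 → Ω → ℝ) (s : (ℝ≥0 → ℝ) → ℝ) :
    Measure ((Ω × Ω) × ℝ) := ((P.prod P).prod volume).restrict (RR B s)

lemma QQ_layer (hB : CBM P B) (hsm : Measurable s) (hs0 : ∀ x, 0 ≤ s x) (n : ℕ)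
    {A : Set (ℝ≥0 → ℝ)} (hA : MeasurableSet A) :
    QQ P B s (DD B s n ∩ {z | YY n (path B z.1.1) (path B z.1.2) ∈ A}) =
      ∫⁻ ω, ENNReal.ofReal (bb B s n ω - aa B s n ω) *
        A.indicator 1 (YY n (path B ω.1) (path B ω.2)) ∂(P.prod P) := by
  have hYm : Measurable (fun ω : Ω × Ω => YY n (path B ω.1) (path B ω.2)) :=
    (measurable_YY n).comp ((hB.mpath.comp measurable_fst).prodMk (hB.mpath.comp measurable_snd))
  have hms : MeasurableSet (DD B s n ∩ {z : (Ω × Ω) × ℝ | YY n (path B z.1.1) (path B z.1.2) ∈ A}) :=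
    (measurableSet_DD hB hsm n).inter ((hYm.comp measurable_fst) hA)
  unfold QQ
  rw [Measure.restrict_apply hms]
  have h1 : DD B s n ∩ {z : (Ω × Ω) × ℝ | YY n (path B z.1.1) (path B z.1.2) ∈ A} ∩ RR B s =
      DD B s n ∩ {z : (Ω × Ω) × ℝ | YY n (path B z.1.1) (path B z.1.2) ∈ A} :=
    inter_eq_left.2 fun z hz => DD_subset hB hs0 n hz.1
  rw [h1, Measure.prod_apply hms]
  refine lintegral_congr fun ω => ?_
  by_cases hω : YY n (path B ω.1) (path B ω.2) ∈ A
  · rw [indicator_of_mem hω, Pi.one_apply, mul_one]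
    have : Prod.mk ω ⁻¹' (DD B s n ∩ {z : (Ω × Ω) × ℝ | YY n (path B z.1.1) (path B z.1.2) ∈ A}) =
        Ico (aa B s n ω) (bb B s n ω) := by
      ext v
      simp only [mem_preimage, mem_inter_iff, mem_ofPred_eq, DD, mem_Ico]
      exact ⟨fun h => h.1, fun h => ⟨h, hω⟩⟩
    rw [this, Real.volume_Ico]
  · rw [indicator_of_notMem hω, mul_zero]
    have : Prod.mk ω ⁻¹' (DD B s n ∩ {z : (Ω × Ω) × ℝ | YY n (path B z.1.1) (path B z.1.2) ∈ A}) =
        ∅ := by
      ext v
      simp only [mem_preimage, mem_inter_iff, mem_ofPred_eq, mem_empty_iff_false, iff_false,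
        not_and]
      exact fun _ h => hω h
    rw [this, measure_empty]

/-- the density of the `n`-th layer -/
noncomputable def rho (s : (ℝ≥0 → ℝ) → ℝ) : ℕ → (ℝ≥0 → ℝ) → ℝ
  | 0 => fun x => 1 - gg sh s 0 x
  | n + 1 => fun x => gg sh s n x - gg sh s (n + 1) x

lemma rho_nonneg (hs0 : ∀ x, 0 ≤ s x) (n : ℕ) (x : ℝ≥0 → ℝ) : 0 ≤ rho s n x := by
  cases n with
  | zero =>
    show 0 ≤ 1 - gg sh s 0 x
    have : gg sh s 0 x ≤ 1 := by
      show max (-(s x - 1)) 0 ≤ 1
      exact max_le (by linarith [hs0 x]) zero_le_one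
    linarith
  | succ n =>
    have := gg_succ_le (S := sh) (s := s) n x
    show 0 ≤ gg sh s n x - gg sh s (n + 1) x
    linarith

lemma measurable_rho (hsm : Measurable s) (n : ℕ) : Measurable (rho s n) := by
  cases n with
  | zero => exact measurable_const.sub (measurable_gg measurable_sh hsm 0)
  | succ n => exact (measurable_gg measurable_sh hsm n).sub (measurable_gg measurable_sh hsm (n + 1))

lemma sum_rho (N : ℕ) (x : ℝ≥0 → ℝ) :
    ∑ n ∈ Finset.range (N + 1), rho s n x = 1 - gg sh s N x := by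
  induction N with
  | zero => simp [rho]
  | succ N ih =>
    rw [Finset.sum_range_succ, ih]
    show 1 - gg sh s N x + (gg sh s N x - gg sh s (N + 1) x) = _
    ring

lemma bb_sub_aa (hB : CBM P B) (n : ℕ) (ω : Ω × Ω) :
    bb B s n ω - aa B s n ω = rho s n (YY n (path B ω.1) (path B ω.2)) := by
  cases n with
  | zero =>
    have h1 := hh_eq (S := sh) (s := s) 0 (path B ω.1)
    have h2 : hh sh s 0 (path B ω.1) = s (path B ω.1) - 1 := rfl
    show s (path B ω.1) - ff sh s 0 (YY 0 (path B ω.1) (path B ω.2)) =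
      1 - gg sh s 0 (YY 0 (path B ω.1) (path B ω.2))
    rw [YY_zero]
    linarith
  | succ n =>
    have h1 := balance (S := sh) (s := s) n (YY (n + 1) (path B ω.1) (path B ω.2))
    rw [sh_YY (hB.path_zero _) (hB.path_zero _)] at h1
    show ff sh s n (YY n (path B ω.1) (path B ω.2)) -
      ff sh s (n + 1) (YY (n + 1) (path B ω.1) (path B ω.2)) =
      gg sh s n (YY (n + 1) (path B ω.1) (path B ω.2)) -
        gg sh s (n + 1) (YY (n + 1) (path B ω.1) (path B ω.2))
    linarith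

lemma QQ_layer' (hB : CBM P B) (hsm : Measurable s) (hs0 : ∀ x, 0 ≤ s x) (n : ℕ)
    {A : Set (ℝ≥0 → ℝ)} (hA : MeasurableSet A) :
    QQ P B s (DD B s n ∩ {z | YY n (path B z.1.1) (path B z.1.2) ∈ A}) =
      ∫⁻ x in A, ENNReal.ofReal (rho s n x) ∂(P.map (path B)) := by
  rw [QQ_layer hB hsm hs0 n hA]
  simp only [bb_sub_aa hB]
  have hF : Measurable (fun x : ℝ≥0 → ℝ => ENNReal.ofReal (rho s n x) * A.indicator 1 x) :=
    (measurable_rho hsm n).ennreal_ofReal.mul (measurable_one.indicator hA)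
  rw [lintegral_YY hB n hF, ← lintegral_map hF hB.mpath, ← lintegral_indicator hA]
  refine lintegral_congr fun x => ?_
  by_cases hx : x ∈ A
  · simp [hx]
  · simp [hx]

theorem tsum_layers (hB : CBM P B) (hsm : Measurable s) (hs0 : ∀ x, 0 ≤ s x)
    (hsi : Integrable s (P.map (path B))) (hs1 : ∫ x, s x ∂(P.map (path B)) = 1)
    {A : Set (ℝ≥0 → ℝ)} (hA : MeasurableSet A) :
    ∑' n, QQ P B s (DD B s n ∩ {z | YY n (path B z.1.1) (path B z.1.2) ∈ A}) =
      P.map (path B) A := by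
  have hWp : IsProbabilityMeasure (P.map (path B)) :=
    Measure.isProbabilityMeasure_map hB.mpath.aemeasurable
  simp only [QQ_layer' hB hsm hs0 _ hA]
  rw [← lintegral_tsum fun n => (measurable_rho hsm n).ennreal_ofReal.aemeasurable]
  have hg := gg_tendsto_zero (mp_sh hB) (rec_sh hB) hsm hsi hs1
  have h1 : ∀ᵐ x ∂(P.map (path B)), ∑' n, ENNReal.ofReal (rho s n x) = 1 := by
    filter_upwards [hg] with x hx
    have h2 : HasSum (fun n => rho s n x) 1 := by
      rw [hasSum_iff_tendsto_nat_of_nonneg (fun n => rho_nonneg hs0 n x)]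
      rw [← tendsto_add_atTop_iff_nat 1]
      simp only [sum_rho]
      have := hx.const_sub 1
      simpa using this
    rw [← ENNReal.ofReal_tsum_of_nonneg (fun n => rho_nonneg hs0 n x) h2.summable, h2.tsum_eq,
      ENNReal.ofReal_one]
  rw [lintegral_congr_ae (ae_restrict_of_ae h1), lintegral_one, Measure.restrict_apply_univ]

end

end Pool.Agent.V11330.FS
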