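import Mathlib

set_option autoImplicit false

open Set Filter Topology MeasureTheory
open scoped NNReal ENNReal

namespace Pool.Agent.V11330.FS

variable {E : Type*}

/-- the signed remainders of the filling scheme -/
noncomputable def hh (S : E → E) (s : E → ℝ) : ℕ → E → ℝ
  | 0 => fun x => s x - 1
  | n + 1 => fun x => max (hh S s n (S x)) 0 + min (hh S s n x) 0

/-- remaining supply -/
noncomputable def ff (S : E → E) (s : E → ℝ) (n : ℕ) (x : E) : ℝ := max (hh S s n x) 0

/-- remaining demand -/
noncomputable def gg (S : E → E) (s : E → ℝ) (n : ℕ) (x : E) : ℝ := max (-hh S s n x) 0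

variable {S : E → E} {s : E → ℝ}

lemma ff_nonneg (n : ℕ) (x : E) : 0 ≤ ff S s n x := le_max_right _ _

lemma gg_nonneg (n : ℕ) (x : E) : 0 ≤ gg S s n x := le_max_right _ _

lemma hh_eq (n : ℕ) (x : E) : hh S s n x = ff S s n x - gg S s n x := by
  unfold ff gg
  rcases le_total 0 (hh S s n x) with h | h
  · rw [max_eq_left h, max_eq_right (by linarith)]; ring
  · rw [max_eq_right h, max_eq_left (by linarith)]; ring

lemma hh_succ (n : ℕ) (x : E) : hh S s (n + 1) x = ff S s n (S x) - gg S s n x := by
  have h1 : hh S s (n + 1) x = max (hh S s n (S x)) 0 + min (hh S s n x) 0 := rfl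
  rw [h1]
  unfold ff gg
  rcases le_total 0 (hh S s n x) with h | h
  · rw [min_eq_right h, max_eq_right (by linarith : -hh S s n x ≤ 0)]; ring
  · rw [min_eq_left h, max_eq_left (by linarith : 0 ≤ -hh S s n x)]; ring

lemma balance (n : ℕ) (x : E) :
    ff S s (n + 1) x - gg S s (n + 1) x = ff S s n (S x) - gg S s n x := by
  rw [← hh_eq, hh_succ]

lemma gg_succ_le (n : ℕ) (x : E) : gg S s (n + 1) x ≤ gg S s n x := by
  have h1 := ff_nonneg (S := S) (s := s) n (S x)
  have h2 := gg_nonneg (S := S) (s := s) n x
  unfold gg at *
  rw [hh_succ]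
  unfold gg
  refine max_le ?_ h2
  linarith

lemma ff_succ_le (n : ℕ) (x : E) : ff S s (n + 1) x ≤ ff S s n (S x) := by
  have h1 := ff_nonneg (S := S) (s := s) n (S x)
  have h2 := gg_nonneg (S := S) (s := s) n x
  have h3 : ff S s (n + 1) x = max (ff S s n (S x) - gg S s n x) 0 := by
    show max (hh S s (n + 1) x) 0 = _
    rw [hh_succ]
  rw [h3]
  exact max_le (by linarith) h1

lemma ff_eq_zero_of_gg_pos {n : ℕ} {x : E} (h : 0 < gg S s n x) : ff S s n x = 0 := by
  unfold gg at h
  unfold ff
  rcases le_total 0 (hh S s n x) with h1 | h1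
  · rw [max_eq_right (by linarith)] at h
    exact absurd h (lt_irrefl _)
  · exact max_eq_right h1

lemma gg_anti (x : E) : Antitone fun n => gg S s n x :=
  antitone_nat_of_succ_le fun n => gg_succ_le n x

variable [MeasurableSpace E] {W : Measure E} [IsProbabilityMeasure W]

omit [IsProbabilityMeasure W] in
lemma measurable_hh (hS : Measurable S) (hs : Measurable s) (n : ℕ) : Measurable (hh S s n) := by
  induction n with
  | zero => exact hs.sub_const 1
  | succ n ih => exact ((ih.comp hS).max measurable_const).add (ih.min measurable_const)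

omit [IsProbabilityMeasure W] in
lemma measurable_ff (hS : Measurable S) (hs : Measurable s) (n : ℕ) : Measurable (ff S s n) :=
  (measurable_hh hS hs n).max measurable_const

omit [IsProbabilityMeasure W] in
lemma measurable_gg (hS : Measurable S) (hs : Measurable s) (n : ℕ) : Measurable (gg S s n) :=
  (measurable_hh hS hs n).neg.max measurable_const

lemma integrable_hh (hS : MeasurePreserving S W W) (hs : Integrable s W)
    (n : ℕ) : Integrable (hh S s n) W := by
  induction n with
  | zero => exact hs.sub (integrable_const 1)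
  | succ n ih =>
    have h1 : Integrable (fun x => max (hh S s n (S x)) 0) W := by
      have := hS.integrable_comp_of_integrable (ih.pos_part)
      exact this
    have h2 : Integrable (fun x => min (hh S s n x) 0) W := by
      have h3 := ih.neg_part.neg
      refine h3.congr (ae_of_all _ fun x => ?_)
      show -max (-hh S s n x) 0 = min (hh S s n x) 0
      rw [max_neg_neg_zero_aux]
    exact h1.add h2
where
  max_neg_neg_zero_aux {a : ℝ} : -max (-a) 0 = min a 0 := by
    rcases le_total 0 a with h | h
    · rw [max_eq_right (by linarith), min_eq_right h]; simp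
    · rw [max_eq_left (by linarith), min_eq_left h]; simp

lemma integrable_ff (hS : MeasurePreserving S W W) (hs : Integrable s W)
    (n : ℕ) : Integrable (ff S s n) W := (integrable_hh hS hs n).pos_part

lemma integrable_gg (hS : MeasurePreserving S W W) (hs : Integrable s W)
    (n : ℕ) : Integrable (gg S s n) W := (integrable_hh hS hs n).neg_part

lemma integral_hh (hS : MeasurePreserving S W W) (hsm : Measurable s) (hs : Integrable s W)
    (hs1 : ∫ x, s x ∂W = 1) (n : ℕ) : ∫ x, hh S s n x ∂W = 0 := by
  induction n with
  | zero =>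
    show ∫ x, (s x - 1) ∂W = 0
    rw [integral_sub hs (integrable_const 1), hs1]
    simp
  | succ n ih =>
    have h1 : ∫ x, ff S s n (S x) ∂W = ∫ x, ff S s n x ∂W := by
      rw [← hS.map_eq]
      have := integral_map (μ := W) hS.measurable.aemeasurable
        (f := ff S s n) (measurable_ff hS.measurable hsm n).aestronglyMeasurable
      rw [this, hS.map_eq]
    have h2 : Integrable (fun x => ff S s n (S x)) W :=
      hS.integrable_comp_of_integrable (integrable_ff hS hs n)
    simp only [hh_succ]
    rw [integral_sub h2 (integrable_gg hS hs n), h1,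
      ← integral_sub (integrable_ff hS hs n) (integrable_gg hS hs n)]
    simp only [← hh_eq]
    exact ih

lemma integral_ff_eq (hS : MeasurePreserving S W W) (hsm : Measurable s) (hs : Integrable s W)
    (hs1 : ∫ x, s x ∂W = 1) (n : ℕ) : ∫ x, ff S s n x ∂W = ∫ x, gg S s n x ∂W := by
  have h := integral_hh hS hsm hs hs1 n
  simp only [hh_eq] at h
  rw [integral_sub (integrable_ff hS hs n) (integrable_gg hS hs n)] at h
  linarith

/-- recurrence: every set of positive measure is visited almost surely -/
def Rec (S : E → E) (W : Measure E) : Prop :=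
  ∀ G, MeasurableSet G → W G ≠ 0 → W (⋂ n : ℕ, (S^[n]) ⁻¹' Gᶜ) = 0

/-- **the filling scheme exhausts the demand** -/
theorem gg_tendsto_zero (hS : MeasurePreserving S W W) (hrec : Rec S W) (hsm : Measurable s)
    (hs : Integrable s W) (hs1 : ∫ x, s x ∂W = 1) :
    ∀ᵐ x ∂W, Tendsto (fun n => gg S s n x) atTop (𝓝 0) := by
  set gi : E → ℝ := fun x => ⨅ n, gg S s n x with hgi
  have hbdd : ∀ x, BddBelow (range fun n => gg S s n x) := fun x =>
    ⟨0, by rintro _ ⟨n, rfl⟩; exact gg_nonneg n x⟩
  have hlim : ∀ x, Tendsto (fun n => gg S s n x) atTop (𝓝 (gi x)) := fun x =>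
    tendsto_atTop_ciInf (gg_anti x) (hbdd x)
  have hgi0 : ∀ x, 0 ≤ gi x := fun x => le_ciInf fun n => gg_nonneg n x
  have hgile : ∀ n x, gi x ≤ gg S s n x := fun n x => ciInf_le (hbdd x) n
  have hgim : Measurable gi := Measurable.iInf fun n => measurable_gg hS.measurable hsm n
  set G : Set E := {x | 0 < gi x} with hG
  have hGm : MeasurableSet G := measurableSet_lt measurable_const hgim
  by_cases hG0 : W G = 0
  · have : ∀ᵐ x ∂W, x ∉ G := by rw [ae_iff]; simpa using hG0
    filter_upwards [this] with x hx
    have h1 : gi x = 0 := le_antisymm (not_lt.1 hx) (hgi0 x)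
    rw [← h1]
    exact hlim x
  exfalso
  have hV := hrec G hGm hG0
  set V : ℕ → Set E := fun N => ⋂ n ∈ Finset.range N, (S^[n]) ⁻¹' Gᶜ with hVdef
  have hVm : ∀ N, MeasurableSet (V N) := fun N =>
    Finset.measurableSet_biInter _ fun n _ => (hS.measurable.iterate n) hGm.compl
  have hVanti : Antitone V := by
    intro N M hNM x hx
    simp only [hVdef, mem_iInter, Finset.mem_range] at hx ⊢
    exact fun n hn => hx n (by omega)
  have hVlim : Tendsto (fun N => W (V N)) atTop (𝓝 0) := by
    have h1 := tendsto_measure_iInter_atTop (μ := W) (s := V)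
      (fun N => (hVm N).nullMeasurableSet) hVanti ⟨0, measure_ne_top _ _⟩
    have h2 : ⋂ N, V N = ⋂ n : ℕ, (S^[n]) ⁻¹' Gᶜ := by
      ext x
      simp only [hVdef, mem_iInter, Finset.mem_range]
      exact ⟨fun h n => h (n + 1) n (by omega), fun h _ n _ => h n⟩
    rw [h2, hV] at h1
    exact h1
  -- pointwise bound
  have hpt : ∀ N x, ff S s N x ≤ (V N).indicator (fun x => ff S s 0 (S^[N] x)) x := by
    intro N
    induction N with
    | zero =>
      intro x
      have : x ∈ V 0 := by simp [hVdef]
      rw [indicator_of_mem this]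
      exact le_rfl
    | succ N ih =>
      intro x
      by_cases hx : x ∈ V (N + 1)
      · rw [indicator_of_mem hx]
        refine (ff_succ_le N x).trans ((ih (S x)).trans ?_)
        have h1 : S x ∈ V N := by
          simp only [hVdef, mem_iInter, Finset.mem_range] at hx ⊢
          intro n hn
          have := hx (n + 1) (by omega)
          rwa [Function.iterate_succ] at this
        rw [indicator_of_mem h1]
        exact le_rfl
      · rw [indicator_of_notMem hx]
        by_cases hxG : x ∈ G
        · have h1 : 0 < gg S s (N + 1) x := lt_of_lt_of_le hxG (hgile _ _)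
          exact (ff_eq_zero_of_gg_pos h1).le
        · refine (ff_succ_le N x).trans ((ih (S x)).trans ?_)
          have h1 : S x ∉ V N := by
            intro hcon
            apply hx
            simp only [hVdef, mem_iInter, Finset.mem_range] at hcon ⊢
            intro n hn
            rcases n with _ | n
            · exact hxG
            · have := hcon n (by omega)
              rwa [← mem_preimage, ← preimage_comp, ← Function.iterate_succ] at this
          rw [indicator_of_notMem h1]
  have hf0 := integrable_ff hS hs 0
  have hf0N : ∀ N, Integrable (fun x => ff S s 0 (S^[N] x)) W := fun N =>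
    (hS.iterate N).integrable_comp_of_integrable hf0
  -- the integrals tend to zero
  have hpos : 0 < ∫ x, gi x ∂W := by
    have hgiint : Integrable gi W := by
      refine (integrable_gg hS hs 0).mono' hgim.aestronglyMeasurable (ae_of_all _ fun x => ?_)
      rw [Real.norm_of_nonneg (hgi0 x)]
      exact hgile 0 x
    rw [integral_pos_iff_support_of_nonneg hgi0 hgiint]
    refine lt_of_lt_of_le (pos_iff_ne_zero.2 hG0) (measure_mono fun x hx => ?_)
    exact ne_of_gt hx
  have hgiint : Integrable gi W := by
    refine (integrable_gg hS hs 0).mono' hgim.aestronglyMeasurable (ae_of_all _ fun x => ?_)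
    rw [Real.norm_of_nonneg (hgi0 x)]
    exact hgile 0 x
  -- truncation
  have htrunc : Tendsto (fun K : ℕ => ∫ x, max (ff S s 0 x - K) 0 ∂W) atTop (𝓝 0) := by
    have key : Tendsto (fun K : ℕ => ∫ x, max (ff S s 0 x - K) 0 ∂W) atTop
        (𝓝 (∫ _x : E, (0 : ℝ) ∂W)) := by
      refine tendsto_integral_of_dominated_convergence (ff S s 0) ?_ hf0 ?_ ?_
      · intro K
        exact (((measurable_ff hS.measurable hsm 0).sub_const _).max
          measurable_const).aestronglyMeasurable
      · intro K
        refine ae_of_all _ fun x => ?_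
        rw [Real.norm_of_nonneg (le_max_right _ _)]
        have := ff_nonneg (S := S) (s := s) 0 x
        exact max_le (by have : (0 : ℝ) ≤ K := Nat.cast_nonneg K; linarith) this
      · refine ae_of_all _ fun x => ?_
        obtain ⟨K0, hK0⟩ := exists_nat_ge (ff S s 0 x)
        refine tendsto_const_nhds.congr' ?_
        filter_upwards [eventually_ge_atTop K0] with K hK
        have : (K0 : ℝ) ≤ K := by exact_mod_cast hK
        rw [max_eq_right (by linarith)]
    simpa using key
  obtain ⟨K, hK⟩ := (htrunc.eventually (gt_mem_nhds (show 0 < (∫ x, gi x ∂W) / 2 by positivity))).exists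
  have hVr : Tendsto (fun N => (K : ℝ) * W.real (V N)) atTop (𝓝 0) := by
    have h1 := (ENNReal.tendsto_toReal (ENNReal.zero_ne_top)).comp hVlim
    have h2 := h1.const_mul (K : ℝ)
    simpa [measureReal_def] using h2
  obtain ⟨N, hN⟩ := (hVr.eventually (gt_mem_nhds (show 0 < (∫ x, gi x ∂W) / 2 by positivity))).exists
  have h1 : ∫ x, gi x ∂W ≤ ∫ x, gg S s N x ∂W :=
    integral_mono hgiint (integrable_gg hS hs N) fun x => hgile N x
  rw [← integral_ff_eq hS hsm hs hs1 N] at h1
  have h2 : ∫ x, ff S s N x ∂W ≤ ∫ x, (V N).indicator (fun x => ff S s 0 (S^[N] x)) x ∂W :=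
    integral_mono (integrable_ff hS hs N) ((hf0N N).indicator (hVm N)) fun x => hpt N x
  have hmax : Integrable (fun x => max (ff S s 0 x - K) 0) W :=
    (hf0.sub (integrable_const _)).pos_part
  have hmaxN : Integrable (fun x => max (ff S s 0 (S^[N] x) - K) 0) W :=
    (hS.iterate N).integrable_comp_of_integrable hmax
  have h3 : ∫ x, (V N).indicator (fun x => ff S s 0 (S^[N] x)) x ∂W ≤
      ∫ x, ((V N).indicator (fun _ => (K : ℝ)) x + max (ff S s 0 (S^[N] x) - K) 0) ∂W := by
    refine integral_mono ((hf0N N).indicator (hVm N))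
      (((integrable_const _).indicator (hVm N)).add hmaxN) fun x => ?_
    by_cases hx : x ∈ V N
    · simp only [indicator_of_mem hx]
      have := le_max_left (ff S s 0 (S^[N] x) - K) 0
      linarith
    · simp only [indicator_of_notMem hx]
      have := le_max_right (ff S s 0 (S^[N] x) - K) 0
      linarith
  have h4 : ∫ x, ((V N).indicator (fun _ => (K : ℝ)) x + max (ff S s 0 (S^[N] x) - K) 0) ∂W =
      K * W.real (V N) + ∫ x, max (ff S s 0 x - K) 0 ∂W := by
    rw [integral_add ((integrable_const _).indicator (hVm N)) hmaxN,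
      integral_indicator (hVm N), setIntegral_const, smul_eq_mul, mul_comm]
    congr 1
    have h5 := (hS.iterate N).map_eq
    have h6 := integral_map (μ := W) (hS.iterate N).measurable.aemeasurable
      (f := fun x => max (ff S s 0 x - K) 0)
      ((((measurable_ff hS.measurable hsm 0).sub_const _).max
        measurable_const).aestronglyMeasurable)
    rw [h5] at h6
    exact h6.symm
  linarith

end Pool.Agent.V11330.FS
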