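import Pool.Agent.V11330.FS.Embed

set_option autoImplicit false

open Set Filter Topology MeasureTheory ProbabilityTheory
open scoped NNReal ENNReal

namespace Pool.Agent.V11330.FS

open Pool.Agent.TH970

/-- a process with the law of Brownian motion is pre-Brownian -/
lemma pre_of_law {Ω Ω' : Type*} [MeasurableSpace Ω] [MeasurableSpace Ω'] {P : Measure Ω}
    {P' : Measure Ω'} {B : ℝ≥0 → Ω → ℝ} {Z : ℝ≥0 → Ω' → ℝ} (hB : IsPreBrownianReal B P)
    (hBm : ∀ t, Measurable (B t)) (hZm : ∀ t, Measurable (Z t))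
    (h : P'.map (path Z) = P.map (path B)) : IsPreBrownianReal Z P' := by
  refine ⟨fun I => ?_⟩
  have hr : Measurable (I.restrict (π := fun _ : ℝ≥0 => ℝ)) := Finset.measurable_restrict I
  refine ⟨(hr.comp (measurable_path hZm)).aemeasurable, ?_⟩
  have h1 : P'.map (fun ω => I.restrict (Z · ω)) = (P'.map (path Z)).map I.restrict := by
    rw [Measure.map_map hr (measurable_path hZm)]; rfl
  have h2 : P.map (fun ω => I.restrict (B · ω)) = (P.map (path B)).map I.restrict := by
    rw [Measure.map_map hr (measurable_path hBm)]; rfl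
  rw [h1, h, ← h2]
  exact (hB.hasLaw I).map_eq

section
variable {Ω : Type*} [MeasurableSpace Ω] {P : Measure Ω} [IsProbabilityMeasure P]
  {B : ℝ≥0 → Ω → ℝ} {s : (ℝ≥0 → ℝ) → ℝ}

lemma QQ_first (hB : CBM P B) (hsm : Measurable s) {A : Set (ℝ≥0 → ℝ)} (hA : MeasurableSet A) :
    QQ P B s {z | path B z.1.1 ∈ A} = ∫⁻ x in A, ENNReal.ofReal (s x) ∂(P.map (path B)) := by
  have hm1 : Measurable (fun z : (Ω × Ω) × ℝ => path B z.1.1) :=
    hB.mpath.comp (measurable_fst.comp measurable_fst)
  have hms : MeasurableSet {z : (Ω × Ω) × ℝ | path B z.1.1 ∈ A} := hm1 hA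
  unfold QQ
  rw [Measure.restrict_apply hms, Measure.prod_apply (hms.inter (measurableSet_RR hB hsm))]
  have h1 : ∀ ω : Ω × Ω, volume (Prod.mk ω ⁻¹' ({z : (Ω × Ω) × ℝ | path B z.1.1 ∈ A} ∩
      RR B s)) = A.indicator (fun x => ENNReal.ofReal (s x)) (path B ω.1) := by
    intro ω
    by_cases hω : path B ω.1 ∈ A
    · have : Prod.mk ω ⁻¹' ({z : (Ω × Ω) × ℝ | path B z.1.1 ∈ A} ∩ RR B s) =
          Ico 0 (s (path B ω.1)) := by
        ext v
        simp only [mem_preimage, mem_inter_iff, RR, mem_ofPred_eq, mem_Ico]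
        exact ⟨fun h => h.2, fun h => ⟨hω, h⟩⟩
      rw [this, Real.volume_Ico, sub_zero, indicator_of_mem hω]
    · have : Prod.mk ω ⁻¹' ({z : (Ω × Ω) × ℝ | path B z.1.1 ∈ A} ∩ RR B s) = ∅ := by
        ext v
        simp only [mem_preimage, mem_inter_iff, mem_ofPred_eq, mem_empty_iff_false, iff_false,
          not_and]
        exact fun h => absurd h hω
      rw [this, measure_empty, indicator_of_notMem hω]
  simp only [h1]
  have hF : Measurable (A.indicator fun x => ENNReal.ofReal (s x)) :=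
    hsm.ennreal_ofReal.indicator hA
  have h2 := lintegral_YY hB 0 hF
  simp only [YY_zero] at h2
  rw [h2, ← lintegral_map hF hB.mpath, lintegral_indicator hA]

open Classical in
/-- the stopping level -/
noncomputable def lev (B : ℝ≥0 → Ω → ℝ) (s : (ℝ≥0 → ℝ) → ℝ) (z : (Ω × Ω) × ℝ) : ℕ :=
  if h : ∃ n, z ∈ DD B s n then Nat.find h else 0

lemma lev_eq (hB : CBM P B) (hs0 : ∀ x, 0 ≤ s x) {n : ℕ} {z : (Ω × Ω) × ℝ} (hz : z ∈ DD B s n) :
    lev B s z = n := by
  classical
  have hex : ∃ n, z ∈ DD B s n := ⟨n, hz⟩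
  have h1 : lev B s z = Nat.find hex := dif_pos hex
  rw [h1]
  have h2 := Nat.find_spec hex
  rcases lt_trichotomy (Nat.find hex) n with h | h | h
  · exact (DD_disj hB hs0 h h2 hz).elim
  · exact h
  · exact (DD_disj hB hs0 h hz h2).elim

lemma measurable_lev (hB : CBM P B) (hsm : Measurable s) (hs0 : ∀ x, 0 ≤ s x) :
    Measurable (lev B s) := by
  classical
  have hDm : ∀ n, MeasurableSet (DD B s n) := fun n => measurableSet_DD hB hsm n
  refine measurable_to_countable' fun n => ?_
  have : lev B s ⁻¹' {n} = DD B s n ∪ ((⋃ m, DD B s m)ᶜ ∩ {_z | n = 0}) := by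
    ext z
    simp only [mem_preimage, mem_singleton_iff, mem_union, mem_inter_iff, mem_compl_iff,
      mem_iUnion, mem_ofPred_eq]
    constructor
    · intro h
      by_cases hex : ∃ m, z ∈ DD B s m
      · left
        obtain ⟨m, hm⟩ := hex
        have := lev_eq hB hs0 hm
        rw [← h, this]; exact hm
      · right
        refine ⟨hex, ?_⟩
        rw [← h]
        exact dif_neg hex
    · rintro (h | ⟨h, rfl⟩)
      · exact lev_eq hB hs0 h
      · exact dif_neg h
  rw [this]
  exact (hDm n).union ((MeasurableSet.iUnion hDm).compl.inter (MeasurableSet.const _))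

/-- the extended path -/
noncomputable def ZZ (B : ℝ≥0 → Ω → ℝ) (s : (ℝ≥0 → ℝ) → ℝ) (z : (Ω × Ω) × ℝ) : ℝ≥0 → ℝ :=
  YY (lev B s z) (path B z.1.1) (path B z.1.2)

lemma measurable_YYn (hB : CBM P B) (n : ℕ) :
    Measurable (fun z : (Ω × Ω) × ℝ => YY n (path B z.1.1) (path B z.1.2)) :=
  (measurable_YY n).comp ((hB.mpath.comp (measurable_fst.comp measurable_fst)).prodMk
      (hB.mpath.comp (measurable_snd.comp measurable_fst)))

lemma measurable_ZZ (hB : CBM P B) (hsm : Measurable s) (hs0 : ∀ x, 0 ≤ s x) :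
    Measurable (ZZ B s) := by
  intro A hA
  have h1 : ZZ B s ⁻¹' A = ⋃ n : ℕ, (lev B s ⁻¹' {n} ∩
      (fun z : (Ω × Ω) × ℝ => YY n (path B z.1.1) (path B z.1.2)) ⁻¹' A) := by
    ext z
    rw [mem_iUnion]
    constructor
    · intro h
      exact ⟨lev B s z, rfl, h⟩
    · rintro ⟨n, hn, h⟩
      have h2 : lev B s z = n := hn
      show YY (lev B s z) (path B z.1.1) (path B z.1.2) ∈ A
      rw [h2]
      exact h
  rw [h1]
  refine MeasurableSet.iUnion fun n => ?_
  exact (measurable_lev hB hsm hs0 (measurableSet_singleton n)).inter (measurable_YYn hB n hA)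

lemma isProb_QQ (hB : CBM P B) (hsm : Measurable s) (hs0 : ∀ x, 0 ≤ s x)
    (hsi : Integrable s (P.map (path B))) (hs1 : ∫ x, s x ∂(P.map (path B)) = 1) :
    IsProbabilityMeasure (QQ P B s) := by
  refine ⟨?_⟩
  have h1 := QQ_first (P := P) hB hsm (A := univ) MeasurableSet.univ
  simp only [mem_univ] at h1
  have h2 : {_z : (Ω × Ω) × ℝ | True} = univ := by ext; simp
  rw [h2] at h1
  rw [h1, Measure.restrict_univ, ← ofReal_integral_eq_lintegral_ofReal hsi (ae_of_all _ hs0), hs1,
    ENNReal.ofReal_one]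

/-- **the filling scheme produces Brownian motion** -/
theorem law_ZZ (hB : CBM P B) (hsm : Measurable s) (hs0 : ∀ x, 0 ≤ s x)
    (hsi : Integrable s (P.map (path B))) (hs1 : ∫ x, s x ∂(P.map (path B)) = 1) :
    (QQ P B s).map (ZZ B s) = P.map (path B) := by
  have hWp : IsProbabilityMeasure (P.map (path B)) :=
    Measure.isProbabilityMeasure_map hB.mpath.aemeasurable
  have hQp := isProb_QQ hB hsm hs0 hsi hs1
  have hDm : ∀ n, MeasurableSet (DD B s n) := fun n => measurableSet_DD hB hsm n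
  have hdisj : Pairwise (Function.onFun Disjoint (DD B s)) := by
    intro n m hnm
    rw [Function.onFun, Set.disjoint_left]
    intro z h1 h2
    rcases lt_or_gt_of_ne hnm with h | h
    · exact DD_disj hB hs0 h h1 h2
    · exact DD_disj hB hs0 h h2 h1
  -- the layers exhaust the space
  have hfull : QQ P B s (⋃ n, DD B s n)ᶜ = 0 := by
    have h1 := tsum_layers hB hsm hs0 hsi hs1 (A := univ) MeasurableSet.univ
    rw [measure_univ] at h1
    have h2 : ∀ n, DD B s n ∩ {z : (Ω × Ω) × ℝ | YY n (path B z.1.1) (path B z.1.2) ∈ (univ : Set _)} =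
        DD B s n := fun n => by ext z; simp
    simp only [h2] at h1
    rw [← measure_iUnion hdisj hDm] at h1
    rw [prob_compl_eq_zero_iff (MeasurableSet.iUnion hDm)]
    exact h1
  ext A hA
  rw [Measure.map_apply (measurable_ZZ hB hsm hs0) hA, ← tsum_layers hB hsm hs0 hsi hs1 hA]
  have h3 : QQ P B s (ZZ B s ⁻¹' A) = QQ P B s (⋃ n, DD B s n ∩
      {z | YY n (path B z.1.1) (path B z.1.2) ∈ A}) := by
    refine measure_congr ?_
    have h4 : ∀ᵐ z ∂(QQ P B s), z ∈ ⋃ n, DD B s n := by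
      rw [ae_iff]; exact hfull
    filter_upwards [h4] with z hz
    obtain ⟨n, hn⟩ := mem_iUnion.1 hz
    have h5 := lev_eq hB hs0 hn
    refine propext ⟨fun h => ?_, fun h => ?_⟩
    · refine mem_iUnion.2 ⟨n, hn, ?_⟩
      have h6 : ZZ B s z ∈ A := h
      unfold ZZ at h6
      rw [h5] at h6
      exact h6
    · obtain ⟨m, hm, hm2⟩ := mem_iUnion.1 h
      have h6 := lev_eq hB hs0 hm
      show ZZ B s z ∈ A
      unfold ZZ
      rw [h6]
      exact hm2
  rw [h3, measure_iUnion]
  · intro n m hnm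
    exact (hdisj hnm).mono inter_subset_left inter_subset_left
  · intro n
    exact (hDm n).inter ((measurable_YYn hB n) hA)

end

end Pool.Agent.V11330.FS
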